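import Pool.Agent.TH56.CM.Rlx

/-!
# Every tree packs `N` times into `K_{N,N}` for all `N ≥ m + 2 (L - 2) min (⌊log₂ (L - 1)⌋, 6)`

Let `T` be a tree with `m ≥ 1` edges, and let `L` be the number of leaves of the tree obtained from
`T` by deleting all leaves of `T`.  For every `N ≥ m + 2 (L - 2) min (⌊log₂ (L - 1)⌋, 6)` the complete
bipartite graph `K_{N,N}` contains `N` pairwise edge-disjoint copies of `T`, which are the shifts of
one copy under a cyclic group acting regularly on both sides.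
-/

set_option autoImplicit false

namespace Pool.Agent.Results.MP_2fbe9b_co.DerivedPacking

/-- The number of the vertices of `T` which are not leaves and have at most one neighbour that is
not a leaf, i.e. of the vertices of degree at most `1` of the tree obtained from `T` by deleting all
leaves. -/
noncomputable def derivedLeaves {V : Type} (T : SimpleGraph V) : ℕ :=
  {x : V | 2 ≤ (T.neighborSet x).ncard ∧
    {y : V | T.Adj x y ∧ 2 ≤ (T.neighborSet y).ncard}.ncard ≤ 1}.ncard

/-- Let `T` be a finite tree with `m ≥ 1` edges, `L` the number of leaves of the tree obtained from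
`T` by deleting all leaves, and `N ≥ m + 2 (L - 2) min (⌊log₂ (L - 1)⌋, 6)` (truncated subtraction).  Then
`T` packs `N` times into `K_{N,N}` (the complete bipartite graph on two copies of `ZMod N`): there
are `N` injective maps `φ i` (`i : Fin N`) of the vertices of `T` which send edges to edges, such
that edges of different copies, and different edges of the same copy, are different. Moreover the
copies are the shifts of one copy. -/
theorem result (V : Type) [Fintype V] (T : SimpleGraph V) (hT : T.IsTree)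
    (he : 1 ≤ T.edgeSet.ncard) (N : ℕ)
    (hN : T.edgeSet.ncard + 2 * (derivedLeaves T - 2) * min (Nat.log 2 (derivedLeaves T - 1)) 6 ≤ N) :
    ∃ φ : Fin N → V → ZMod N ⊕ ZMod N,
      (∀ i, Function.Injective (φ i)) ∧
      (∀ i u v, T.Adj u v →
        (completeBipartiteGraph (ZMod N) (ZMod N)).Adj (φ i u) (φ i v)) ∧
      (∀ i j u v u' v', T.Adj u v → T.Adj u' v' → s(φ i u, φ i v) = s(φ j u', φ j v') →
        i = j ∧ s(u, v) = s(u', v')) ∧
      (∃ ψ : V → ZMod N ⊕ ZMod N, ∀ i v,
        φ i v = Sum.map (fun t => t + ((i : ℕ) : ZMod N)) (fun t => t + ((i : ℕ) : ZMod N)) (ψ v)) := by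
  classical
  obtain ⟨col, hcol⟩ := Pool.Agent.TH56.CL.exists_col hT
  obtain ⟨M, hR, f6⟩ := Pool.Agent.TH56.CM.rlx_both hT he
  obtain ⟨θ, f, f1, f2, hθ, hθM, -, f4, f5⟩ := hR.bip he col hcol true
  have hMN : M ≤ N := f6.trans hN
  have hmod : ∀ (x y : ℕ), (x : ZMod N) = (y : ZMod N) → x < y + N → y < x + N → x = y := by
    intro x y h h2 h3
    have h4 := (ZMod.natCast_eq_natCast_iff x y N).1 h
    exact Nat.ModEq.eq_of_abs_lt h4 (by rw [abs_lt]; constructor <;> omega)
  let ψ : V → ZMod N ⊕ ZMod N := fun v =>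
    if f v < θ then Sum.inl (f v : ZMod N) else Sum.inr (f v : ZMod N)
  have hψ1 : ∀ v, f v < θ → ψ v = Sum.inl (f v : ZMod N) := fun v h => if_pos h
  have hψ2 : ∀ v, θ ≤ f v → ψ v = Sum.inr (f v : ZMod N) := fun v h => if_neg (by omega)
  let φ : Fin N → V → ZMod N ⊕ ZMod N := fun i v =>
    Sum.map (fun t => t + ((i : ℕ) : ZMod N)) (fun t => t + ((i : ℕ) : ZMod N)) (ψ v)
  have hφ1 : ∀ i v, f v < θ → φ i v = Sum.inl ((f v : ZMod N) + ((i : ℕ) : ZMod N)) := by
    intro i v h
    show Sum.map _ _ (ψ v) = _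
    rw [hψ1 v h]
    rfl
  have hφ2 : ∀ i v, θ ≤ f v → φ i v = Sum.inr ((f v : ZMod N) + ((i : ℕ) : ZMod N)) := by
    intro i v h
    show Sum.map _ _ (ψ v) = _
    rw [hψ2 v h]
    rfl
  refine ⟨φ, ?_, ?_, ?_, ψ, fun i v => rfl⟩
  · intro i u v h
    have h2 := f2 u
    have h3 := f2 v
    rcases lt_or_ge (f u) θ with hu | hu <;> rcases lt_or_ge (f v) θ with hv | hv
    · rw [hφ1 i u hu, hφ1 i v hv, Sum.inl.injEq, add_left_inj] at h
      exact f1 (hmod _ _ h (by omega) (by omega))
    · rw [hφ1 i u hu, hφ2 i v hv] at h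
      exact absurd h (by simp)
    · rw [hφ2 i u hu, hφ1 i v hv] at h
      exact absurd h (by simp)
    · rw [hφ2 i u hu, hφ2 i v hv, Sum.inr.injEq, add_left_inj] at h
      exact f1 (hmod _ _ h (by omega) (by omega))
  · intro i u v huv
    rcases f4 u v huv with h | h
    · rw [hφ1 i u h.1, hφ2 i v h.2]
      simp [completeBipartiteGraph]
    · rw [hφ2 i u h.2, hφ1 i v h.1]
      simp [completeBipartiteGraph]
  · have main : ∀ i j x y x' y', T.Adj x y → T.Adj x' y' → f x < θ → θ ≤ f y → f x' < θ →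
        θ ≤ f y' → s(φ i x, φ i y) = s(φ j x', φ j y') → i = j ∧ x = x' ∧ y = y' := by
      intro i j x y x' y' hxy hxy' hx hy hx' hy' h
      rw [hφ1 i x hx, hφ2 i y hy, hφ1 j x' hx', hφ2 j y' hy'] at h
      rcases Sym2.eq_iff.1 h with ⟨h2, h3⟩ | ⟨h2, h3⟩
      · rw [Sum.inl.injEq] at h2
        rw [Sum.inr.injEq] at h3
        have h4 : ((f y + f x' : ℕ) : ZMod N) = ((f y' + f x : ℕ) : ZMod N) := by
          push_cast
          linear_combination h3 - h2
        have h5 := f2 y
        have h6 := f2 y'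
        obtain ⟨h7, h8⟩ := f5 x y x' y' hxy hxy' hx hx' (hmod _ _ h4 (by omega) (by omega))
        refine ⟨?_, h7, h8⟩
        rw [h7, add_right_inj] at h2
        have h9 := i.2
        have h10 := j.2
        exact Fin.ext (hmod _ _ h2 (by omega) (by omega))
      · exact absurd h2 (by simp)
    intro i j u v u' v' huv huv' h
    rcases f4 u v huv with h2 | h2 <;> rcases f4 u' v' huv' with h3 | h3
    · obtain ⟨h4, h5, h6⟩ := main i j u v u' v' huv huv' h2.1 h2.2 h3.1 h3.2 h
      exact ⟨h4, by rw [h5, h6]⟩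
    · obtain ⟨h4, h5, h6⟩ := main i j u v v' u' huv huv'.symm h2.1 h2.2 h3.1 h3.2
        (h.trans Sym2.eq_swap)
      exact ⟨h4, by rw [h5, h6]; exact Sym2.eq_swap⟩
    · obtain ⟨h4, h5, h6⟩ := main i j v u u' v' huv.symm huv' h2.1 h2.2 h3.1 h3.2
        (Sym2.eq_swap.trans h)
      exact ⟨h4, by rw [h5, h6]; exact Sym2.eq_swap⟩
    · obtain ⟨h4, h5, h6⟩ := main i j v u v' u' huv.symm huv'.symm h2.1 h2.2 h3.1 h3.2
        ((Sym2.eq_swap.trans h).trans Sym2.eq_swap)
      exact ⟨h4, by rw [h5, h6]⟩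

end Pool.Agent.Results.MP_2fbe9b_co.DerivedPacking
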